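import Pool.Agent.Helper70.BI.C.EndC
import Pool.Agent.Helper18.BI.S5.FinDefs8

/-!
# Barbells in the 4-sphere: up to one central element of order two, the implantations of the barbells with a
given fixed cuff are a quotient of a subgroup of the third homology group of the knot group of that cuff
-/

set_option autoImplicit false

open Pool.Agent.Helper65.Barb
open Pool.Agent.Helper70.Fin (Emb)
open Pool.Agent.Helper18.FinR (Pi2)
open Pool.Agent.Helper18.FinS
open Pool.Agent.Helper18.FinT (Drift)

namespace Pool.Agent.Results.MP_8e98f2_gt.GroupHomologyBound

/-- the third homology group of a group, with integer coefficients -/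
noncomputable def H3 (G : Type) [Group G] : ModuleCat ℤ :=
  groupHomology (Rep.trivial ℤ G ℤ) 3

/-- the third homology group of the fundamental group of the complement of the fixed cuff of `B`, with integer
coefficients -/
noncomputable def KnotH3 (B : Emb) (y₀ : Off B) : ModuleCat ℤ :=
  H3 (FundamentalGroup (Off B) y₀)

/-- The fundamental group of the complement of the fixed cuff of `B` is infinite cyclic. -/
def InfiniteCyclicGroup (B : Emb) (y₀ : Off B) : Prop :=
  Nonempty (FundamentalGroup (Off B) y₀ ≃* Multiplicative ℤ)

/-- the second homotopy group of the complement of the fixed cuff of `B` modulo the subgroup generated by the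
quotients of freely homotopic elements (the coinvariants of the action of the fundamental group) -/
def Coinv (B : Emb) (y₀ : Off B) : Type :=
  Pi2 (fixedCuff B) y₀ ⧸ Subgroup.closure (Drift B y₀)

/-- the class of `z` in the coinvariants -/
noncomputable def cv {B : Emb} {y₀ : Off B} (z : Pi2 (fixedCuff B) y₀) : Coinv B y₀ :=
  QuotientGroup.mk z

/-- `θ` is a surjective homomorphism from the third homology group of the knot group to the coinvariants of the
second homotopy group (whose group structure is the one of the quotient group: `cv z`, `cv z'` have the product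
`cv (z * z')`). -/
structure IsSurjectiveHom {B : Emb} {y₀ : Off B} (θ : KnotH3 B y₀ → Coinv B y₀) : Prop where
  surjective : Function.Surjective θ
  hom : ∀ (h h' : KnotH3 B y₀) (z z' : Pi2 (fixedCuff B) y₀), θ h = cv z → θ h' = cv z' →
    θ (h + h') = cv (z * z')

/-- `θ h` is the class of an element of the subgroup of the second homotopy group generated by `S`. -/
def InSubgroup {B : Emb} {y₀ : Off B} (θ : KnotH3 B y₀ → Coinv B y₀) (S : Set (Pi2 (fixedCuff B) y₀))
    (h : KnotH3 B y₀) : Prop :=
  ∃ z ∈ gen S, θ h = cv z

/-- Up to `W`, the map `Ψ` is additive on the elements which `θ` maps to the subgroup generated by the classes of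
the moved cuffs and of the parallel copy of the fixed cuff, its value at `h` is the implantation of every
barbell with the same fixed cuff as `B` whose moved cuff has the class `θ h`, and it is trivial on the elements
which `θ` maps to the subgroup generated by the class of the parallel copy of the fixed cuff. -/
structure Describes (W : S4 → S4) {B : Emb} {y₀ : Off B} (θ : KnotH3 B y₀ → Coinv B y₀)
    (Ψ : KnotH3 B y₀ → S4 → S4) : Prop where
  additive : ∀ h h' : KnotH3 B y₀, InSubgroup θ (MovedClasses B y₀) h →
    InSubgroup θ (MovedClasses B y₀) h' → UpTo W (Ψ (h + h')) (fun x => Ψ h (Ψ h' x))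
  implantation : ∀ (B' : Emb) (φ : S4 → S4) (z : Pi2 (fixedCuff B) y₀) (h : KnotH3 B y₀),
    IsImplantation B' φ → SameFixed B B' → IsClass B y₀ B' z → θ h = cv z → UpTo W φ (Ψ h)
  parallel : ∀ h : KnotH3 B y₀, InSubgroup θ {v | IsParallelClass B y₀ v} h → UpTo W (Ψ h) (fun x => x)

/-- There is a diffeomorphism `W` of the 4-sphere, the implantation of a barbell whose two core spheres bound
disjoint embedded 3-balls, which has order at most two and is central up to isotopy, such that:

* for every barbell `B` with fixed cuff `A` (a possibly knotted 2-sphere) there are a surjective homomorphism `θ`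
  from the third homology group of the fundamental group of the complement of `A` to the second homotopy group of
  the complement modulo quotients of freely homotopic elements, and a map `Ψ` from the third homology group to the
  maps of the 4-sphere, such that `Ψ` is additive up to `W` on the elements which `θ` maps to the subgroup
  generated by the classes of the moved cuffs, the implantation of a barbell with the fixed cuff `A` is `Ψ h`, up
  to `W`, if `θ h` is the class of its moved cuff, and `Ψ h` is trivial up to `W` if `θ h` is in the subgroup
  generated by the class of the parallel copy of `A`;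
* if the third homology group of the knot group of a cuff is trivial, or the knot group is infinite cyclic, then
  the implantations of all barbells with that cuff as fixed or as moved cuff are isotopic to the identity or to
  `W`. -/
theorem result :
    ∃ (W : S4 → S4) (B₀ : Emb), IsImplantation B₀ W ∧ BoundsDisjointBalls B₀ ∧
      Isotopic (fun x => W (W x)) (fun x => x) ∧ IsCentral W ∧
      (∀ (B : Emb) (y₀ : Off B), IsBarbell B → IsBase B y₀ →
        ∃ (θ : KnotH3 B y₀ → Coinv B y₀) (Ψ : KnotH3 B y₀ → S4 → S4),
          IsSurjectiveHom θ ∧ Describes W θ Ψ) ∧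
      ∀ (B B' : Emb) (y₀ : Off B) (φ : S4 → S4), IsBarbell B → IsBase B y₀ →
        (Subsingleton (KnotH3 B y₀) ∨ InfiniteCyclicGroup B y₀) →
        (B' = B ∨ Exchanged B B') → IsImplantation B' φ → UpTo W φ (fun x => x) := by
  obtain ⟨W, B₀, h1, h2, h3, h4, h5, h6⟩ := Pool.Agent.Helper70.T.topGHB
  refine ⟨W, B₀, h1, h2, h3, h4, fun B y₀ hB hy => ?_, h6⟩
  obtain ⟨θ, Ψ, s1, s2, s3, s4⟩ := h5 B y₀ hB hy
  have key : ∀ (a b : Pool.Agent.Helper70.HH.H3 (FundamentalGroup (Off B) y₀))
      (z z' : Pi2 (fixedCuff B) y₀), θ a = Pool.Agent.Helper70.HH.cv z →
      θ b = Pool.Agent.Helper70.HH.cv z' → θ (a + b) = Pool.Agent.Helper70.HH.cv (z * z') := by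
    intro a b z z' e e'
    rw [map_add, e, e']
    rfl
  exact ⟨θ, Ψ, ⟨s1, key⟩, ⟨s2, s3, s4⟩⟩

end Pool.Agent.Results.MP_8e98f2_gt.GroupHomologyBound
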