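import Pool.Agent.Helper70.BI.B.P52
import Pool.Agent.Helper18.BI.R.FinDefs3

/-!
# Barbells in the 4-sphere: up to one central element of order two, the implantations of the barbells with a
given fixed cuff form a homomorphism from the second homotopy group of the complement of that cuff
-/

set_option autoImplicit false

open Pool.Agent.Helper65.Barb
open Pool.Agent.Helper70.Fin (Emb)
open Pool.Agent.Helper18.FinR (Pi2)
open Pool.Agent.Helper18.FinS

namespace Pool.Agent.Results.MP_8e98f2_gt.ImplantationHomomorphism

/-- There is a diffeomorphism `W` of the 4-sphere, the implantation of a barbell whose two core spheres bound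
disjoint embedded 3-balls, which has order at most two and is central up to isotopy, such that:

* for every barbell `B`, with fixed cuff `A` (a possibly knotted 2-sphere), there is a map `Φ` from the second
  homotopy group of the complement of `A` to the maps of the 4-sphere which is multiplicative up to `W` on the
  subgroup generated by the classes of the moved cuffs of all barbells with the fixed cuff `A` and the class of
  the parallel copy of `A`, such that the implantation of every barbell with the fixed cuff `A` (with any bar) is
  `Φ` of the free homotopy class of its moved cuff in the complement of `A`, up to `W`, and `Φ` is trivial up to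
  `W` on the subgroup generated by the classes of the moved cuffs of the elementary barbells with the fixed cuff
  `A` and the class of the parallel copy of `A`;
* the implantation of every elementary barbell is isotopic to the identity or to `W`. -/
theorem result :
    ∃ (W : S4 → S4) (B₀ : Emb), IsImplantation B₀ W ∧ BoundsDisjointBalls B₀ ∧
      Isotopic (fun x => W (W x)) (fun x => x) ∧ IsCentral W ∧
      (∀ (B : Emb) (y₀ : Off B), IsBarbell B → IsBase B y₀ →
        (∀ B' : Emb, IsBarbell B' → SameFixed B B' → ∃ z, IsClass B y₀ B' z) ∧
        ∃ Φ : Pi2 (fixedCuff B) y₀ → S4 → S4,
          (∀ z ∈ gen (MovedClasses B y₀), ∀ z' ∈ gen (MovedClasses B y₀),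
            UpTo W (Φ (z * z')) (fun x => Φ z (Φ z' x))) ∧
          (∀ (B' : Emb) (φ : S4 → S4) (z : Pi2 (fixedCuff B) y₀), IsImplantation B' φ →
            SameFixed B B' → IsClass B y₀ B' z → UpTo W φ (Φ z)) ∧
          ∀ z ∈ gen (ElementaryClasses B y₀), UpTo W (Φ z) (fun x => x)) ∧
      ∀ (B : Emb) (φ : S4 → S4), Elementary B → IsImplantation B φ → UpTo W φ (fun x => x) :=
  Pool.Agent.Helper18.BI.R.hFinal7

end Pool.Agent.Results.MP_8e98f2_gt.ImplantationHomomorphism
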