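import Pool.Agent.Helper70.BI.C.EndB
import Pool.Agent.Helper18.BI.R.FinDefs3

/-!
# Barbells in the 4-sphere: the implantations of rotation invariant barbells are trivial up to one central element
of order two
-/

set_option autoImplicit false

open Pool.Agent.Helper65.Barb
open Pool.Agent.Helper70.Fin (Emb)
open Pool.Agent.Helper18.FinS

namespace Pool.Agent.Results.MP_8e98f2_gt.SpunBarbells

/-- There is a diffeomorphism `W` of the 4-sphere, the implantation of a barbell whose two core spheres bound
disjoint embedded 3-balls, which has order at most two and is central up to isotopy, such that the implantation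
of every rotation invariant barbell (the spin of an arbitrary knotted theta-curve; the two cuffs may be
arbitrarily knotted and linked spun 2-spheres) is isotopic to the identity or to `W`. -/
theorem result :
    ∃ (W : S4 → S4) (B₀ : Emb), IsImplantation B₀ W ∧ BoundsDisjointBalls B₀ ∧
      Isotopic (fun x => W (W x)) (fun x => x) ∧ IsCentral W ∧
      ∀ (B : Emb) (φ : S4 → S4), IsSpun B → IsImplantation B φ → UpTo W φ (fun x => x) :=
  Pool.Agent.Helper70.T.topSpun

end Pool.Agent.Results.MP_8e98f2_gt.SpunBarbells
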