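import Pool.Agent.Helper65.Barb.Final

/-!
# Barbells in the 4-sphere invariant under a rotation: dependence on the constituent spheres
-/

set_option autoImplicit false

open scoped Manifold ContDiff
open Pool.Agent.Helper65.Barb

namespace Pool.Agent.Results.MP_8e98f2_gt.SpunConstituents

/-- There is an assignment of a diffeomorphism `F σ` of the 4-sphere to each thickened 2-sphere
`σ` invariant under the rotation, whose isotopy class depends only on the equivariant type of `σ`,
is inverted when `σ` is reversed and vanishes when `σ` bounds an invariant 3-ball, such that the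
implantation of every barbell `B` invariant under the rotation is the product of the class of the
tube sum of the cuffs with the inverses of the classes of the two cuffs. -/
theorem result :
    ∃ F : (R4 → S4) → S4 → S4,
      (∀ σ σ', IsSpunSphere σ → IsSpunSphere σ' → SameSphere σ σ' →
        Isot (𝓡 4) (F σ) (F σ')) ∧
      (∀ σ σ', IsSpunSphere σ → IsSpunSphere σ' → OppositeSphere σ σ' →
        Isot (𝓡 4) (fun y => F σ' (F σ y)) (fun y => y)) ∧
      (∀ σ, IsSpunSphere σ → BoundsInvariantBall σ → Isot (𝓡 4) (F σ) (fun y => y)) ∧
      ∀ B : PartialDiffeomorph 𝓘(ℝ, R4) (𝓡 4) R4 S4 ∞, IsSpun B → ∀ β, IsBarbellMap β →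
        Isot (𝓡 4) (fun y => implantation B β (F (cuffB B) (F (cuffA B) y))) (F (tubeSum B)) :=
  exists_class

end Pool.Agent.Results.MP_8e98f2_gt.SpunConstituents
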