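import Pool.Agent.Helper65.Barb.Final

/-!
# Barbells in the 4-sphere invariant under a rotation: elements of order two
-/

set_option autoImplicit false

open scoped Manifold ContDiff
open Pool.Agent.Helper65.Barb

namespace Pool.Agent.Results.MP_8e98f2_gt.SpunOrderTwo

/-- Let `B` be a barbell in the 4-sphere invariant under the rotation. If each of its three
spheres bounds an invariant 3-ball or is carried to its reverse by an equivariant diffeomorphism
isotopic to the identity, then the square of the implantation of `B` is smoothly isotopic to the
identity. -/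
theorem result (B : PartialDiffeomorph 𝓘(ℝ, R4) (𝓡 4) R4 S4 ∞) (hB : IsSpun B)
    (h0 : BoundsInvariantBall (cuffA B) ∨ OppositeSphere (cuffA B) (cuffA B))
    (h1 : BoundsInvariantBall (cuffB B) ∨ OppositeSphere (cuffB B) (cuffB B))
    (h2 : BoundsInvariantBall (tubeSum B) ∨ OppositeSphere (tubeSum B) (tubeSum B))
    (β : R4 → R4) (hβ : IsBarbellMap β) :
    Isot (𝓡 4) (fun y => implantation B β (implantation B β y)) (fun y => y) :=
  order_two hB h0 h1 h2 hβ

end Pool.Agent.Results.MP_8e98f2_gt.SpunOrderTwo
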