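import Pool.Agent.Helper65.Barb.Final

/-!
# Barbells in the 4-sphere invariant under a rotation: a vanishing theorem
-/

set_option autoImplicit false

open scoped Manifold ContDiff
open Pool.Agent.Helper65.Barb

namespace Pool.Agent.Results.MP_8e98f2_gt.SpunVanishing

/-- Let `B` be a barbell in the 4-sphere invariant under the rotation. Suppose that each of its
three spheres (the two cuffs and their tube sum along the bar) separately bounds an invariant
3-ball, or that one of them does and the other two are carried to each other by an equivariant
diffeomorphism isotopic to the identity (so that their contributions cancel). Then the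
implantation of `B` is smoothly isotopic to the identity. -/
theorem result (B : PartialDiffeomorph 𝓘(ℝ, R4) (𝓡 4) R4 S4 ∞) (hB : IsSpun B)
    (h : (BoundsInvariantBall (cuffA B) ∧ BoundsInvariantBall (cuffB B) ∧
        BoundsInvariantBall (tubeSum B)) ∨
      (BoundsInvariantBall (cuffA B) ∧ SameSphere (cuffB B) (tubeSum B)) ∨
      (BoundsInvariantBall (cuffB B) ∧ SameSphere (cuffA B) (tubeSum B)) ∨
      (BoundsInvariantBall (tubeSum B) ∧ OppositeSphere (cuffA B) (cuffB B)))
    (β : R4 → R4) (hβ : IsBarbellMap β) :
    Isot (𝓡 4) (implantation B β) (fun y => y) :=
  vanishing hB h hβ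

end Pool.Agent.Results.MP_8e98f2_gt.SpunVanishing
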